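import Mathlib

/-!
# Sheet WD: a Banach space with the compact approximation property and an affine Baire-one map
which is not a pointwise limit of continuous affine maps
-/

set_option autoImplicit false

namespace Pool.Agent.Helper40.WD

open Filter Topology

/-- sizes: `3 ^ k` -/
def mm : ℕ → ℕ
  | 0 => 1
  | k + 1 => 3 * mm k

/-- Davie's functions: `S k j` and `T k j` are orthogonal bounded functions on the `4 * 3 ^ k`
points of level `k`, with small kernels -/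
structure Dav where
  S : ∀ k, Fin (mm k) → Fin (4 * mm k) → ℝ
  T : ∀ k, Fin (mm (k + 1)) → Fin (4 * mm k) → ℝ
  S_le : ∀ k j g, |S k j g| ≤ 4
  T_le : ∀ k j g, |T k j g| ≤ 4
  SS : ∀ k i j, ∑ g, S k i g * S k j g = if i = j then (4 * mm k : ℝ) else 0
  TT : ∀ k i j, ∑ g, T k i g * T k j g = if i = j then (4 * mm k : ℝ) else 0
  ST : ∀ k i j, ∑ g, S k i g * T k j g = 0
  ker : ∀ k g h, |∑ j, T k j g * T k j h - 3 * ∑ j, S k j g * S k j h| ≤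
    1000 * (mm k : ℝ) ^ (3 / 4 : ℝ)
  crs : ∀ k g h, |∑ j, T k j g * S (k + 1) j h| ≤ 1000 * (mm (k + 1) : ℝ) ^ (3 / 4 : ℝ)

/-- row HOF: Hoeffding's inequality for random signs, as a count -/
def ST_HOF : Prop := ∀ (m : ℕ) (c : Fin m → ℝ) (l : ℝ), 1 ≤ m → 0 < l → (∀ j, |c j| ≤ 8) →
  ((Finset.univ.filter (fun e : Fin m → Bool =>
    l < |∑ j, (if e j then (1 : ℝ) else -1) * c j|)).card : ℝ) ≤
    2 ^ m * (2 * Real.exp (-(l ^ 2 / (128 * m))))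

/-- row COL (HOF): signs for a family of at most `64 m^2` vectors -/
def ST_COL : Prop := ∀ (m : ℕ), 1 ≤ m → ∀ (α : Type) (_ : Fintype α) (x : α → Fin m → ℝ),
  Fintype.card α ≤ 64 * m ^ 2 → (∀ a i, |x a i| ≤ 8) →
  ∃ d : Fin m → ℝ, (∀ i, d i = 1 ∨ d i = -1) ∧
    ∀ a, |∑ i, d i * x a i| ≤ 64 * (m : ℝ) ^ (3 / 4 : ℝ)

/-- row SGN (COL): signs for four columns, chosen one after the other -/
def ST_SGN : Prop := ∀ (m N : ℕ), 1 ≤ m → N ≤ 4 * m → ∀ (A : Fin m → Fin N → ℝ)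
  (U : Fin m → Fin 4 → Fin (4 * m) → ℝ), (∀ i g, |A i g| ≤ 4) → (∀ i c g, |U i c g| ≤ 2) →
  ∃ s : Fin m → Fin 4 → ℝ, (∀ i c, s i c = 1 ∨ s i c = -1) ∧
    (∀ c c' g h, c ≠ c' → |∑ i, s i c * s i c' * (U i c g * U i c' h)| ≤
      64 * (m : ℝ) ^ (3 / 4 : ℝ)) ∧
    ∀ c g h, |∑ i, s i c * (A i g * U i c h)| ≤ 64 * (m : ℝ) ^ (3 / 4 : ℝ)

/-- row HART: the Hartley matrix `cos + sin` of size `4 m` (`cas x cas y = cos (x-y) + sin (x+y)`) -/
def ST_HART : Prop := ∀ m : ℕ, 1 ≤ m → ∃ U : Fin m → Fin 4 → Fin (4 * m) → ℝ,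
  (∀ i c g, |U i c g| ≤ 2) ∧ ∀ i c i' c', ∑ g, U i c g * U i' c' g =
    if i = i' ∧ c = c' then (4 * m : ℝ) else 0

/-- row STEP (SGN, HART): one level. `S i = (1/2) ∑_c s_ic U_ic`,
`T (i, r) = (1/2) ∑_c H_rc s_ic U_ic` with the rows `++--`, `+-+-`, `+--+`; kernel identity
`∑ T T - 3 ∑ S S = ∑_ic U_ic U_ic - 4 ∑ S S = - ∑_i ∑_{c ≠ c'} s_ic s_ic' U_ic U_ic'` -/
def ST_STEP : Prop := ∀ (m N : ℕ), 1 ≤ m → N ≤ 4 * m → ∀ (A : Fin m → Fin N → ℝ),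
  (∀ i g, |A i g| ≤ 4) → ∃ (S : Fin m → Fin (4 * m) → ℝ) (T : Fin (3 * m) → Fin (4 * m) → ℝ),
    (∀ j g, |S j g| ≤ 4) ∧ (∀ j g, |T j g| ≤ 4) ∧
    (∀ i j, ∑ g, S i g * S j g = if i = j then (4 * m : ℝ) else 0) ∧
    (∀ i j, ∑ g, T i g * T j g = if i = j then (4 * m : ℝ) else 0) ∧
    (∀ i j, ∑ g, S i g * T j g = 0) ∧
    (∀ g h, |∑ j, T j g * T j h - 3 * ∑ j, S j g * S j h| ≤ 1000 * (m : ℝ) ^ (3 / 4 : ℝ)) ∧
    ∀ g h, |∑ j, A j g * S j h| ≤ 1000 * (m : ℝ) ^ (3 / 4 : ℝ)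

/-- row DAV (STEP): recursion over the levels -/
def ST_DAV : Prop := Nonempty Dav

/-! ## the spaces -/

/-- the points of all levels -/
abbrev Gi := Σ k : ℕ, Fin (4 * mm k)

/-- bounded functions on the points -/
noncomputable abbrev LI := lp (fun _ : Gi => ℝ) ⊤

/-- continuous functions of time -/
noncomputable abbrev CI := C(Set.Icc (0 : ℝ) 1, ℝ)

/-- bounded families of continuous functions -/
noncomputable abbrev LC := lp (fun _ : Gi => CI) ⊤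

/-- the local subspace of the bounded functions -/
noncomputable def Wd (D : Dav) : Submodule ℝ LI where
  carrier := {f | ∀ (k : ℕ) (j : Fin (mm (k + 1))),
    3 * ∑ g, D.T k j g * f ⟨k, g⟩ = ∑ g, D.S (k + 1) j g * f ⟨k + 1, g⟩}
  add_mem' := by
    intro a b ha hb k j
    have h1 := ha k j
    have h2 := hb k j
    simp only [lp.coeFn_add, Pi.add_apply, mul_add, Finset.sum_add_distrib] at *
    rw [h1, h2]
  zero_mem' := by
    intro k j
    simp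
  smul_mem' := by
    intro c a ha k j
    have h1 := ha k j
    simp only [lp.coeFn_smul, Pi.smul_apply, smul_eq_mul, mul_left_comm _ c,
      ← Finset.mul_sum] at *
    rw [h1]

/-- `(log 3) / 16` -/
noncomputable def kap : ℝ := Real.log 3 / 16

/-- the right end of the time interval -/
def one1 : Set.Icc (0 : ℝ) 1 := ⟨1, by norm_num, le_rfl⟩

/-- the left end of the time interval -/
def zer1 : Set.Icc (0 : ℝ) 1 := ⟨0, le_rfl, by norm_num⟩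

/-- the space: `u p t = exp (-(kap k (1 + t))) F t p` with `F t` in the local subspace, `F 0 = 0`,
and `‖u p‖ → 0` when the level tends to infinity -/
noncomputable def Ed (D : Dav) : Submodule ℝ LC where
  carrier := {u | (∀ p, u p zer1 = 0) ∧
    (∀ (k : ℕ) (j : Fin (mm (k + 1))) (t : Set.Icc (0 : ℝ) 1),
      3 * Real.exp (-(kap * (1 + (t : ℝ)))) * ∑ g, D.T k j g * u ⟨k, g⟩ t =
        ∑ g, D.S (k + 1) j g * u ⟨k + 1, g⟩ t) ∧
    ∀ ε : ℝ, 0 < ε → ∃ K : ℕ, ∀ p : Gi, K ≤ p.1 → ‖u p‖ ≤ ε}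
  add_mem' := by
    rintro a b ⟨ha1, ha2, ha3⟩ ⟨hb1, hb2, hb3⟩
    refine ⟨fun p => ?_, fun k j t => ?_, fun ε hε => ?_⟩
    · simp [ha1 p, hb1 p]
    · have h1 := ha2 k j t
      have h2 := hb2 k j t
      simp only [lp.coeFn_add, Pi.add_apply, ContinuousMap.add_apply, mul_add,
        Finset.sum_add_distrib] at *
      rw [h1, h2]
    · obtain ⟨K, hK⟩ := ha3 (ε / 2) (by linarith)
      obtain ⟨L, hL⟩ := hb3 (ε / 2) (by linarith)
      refine ⟨max K L, fun p hp => ?_⟩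
      have h1 := hK p (le_trans (le_max_left _ _) hp)
      have h2 := hL p (le_trans (le_max_right _ _) hp)
      have h3 : ‖(a + b) p‖ ≤ ‖a p‖ + ‖b p‖ := by
        rw [lp.coeFn_add]
        exact norm_add_le _ _
      linarith
  zero_mem' := by
    refine ⟨fun p => by simp, fun k j t => by simp, fun ε hε => ⟨0, fun p _ => ?_⟩⟩
    simp [hε.le]
  smul_mem' := by
    rintro c a ⟨ha1, ha2, ha3⟩
    refine ⟨fun p => ?_, fun k j t => ?_, fun ε hε => ?_⟩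
    · simp [ha1 p]
    · have h1 := ha2 k j t
      simp only [lp.coeFn_smul, Pi.smul_apply, ContinuousMap.smul_apply, smul_eq_mul,
        mul_left_comm _ c, ← Finset.mul_sum] at *
      rw [h1]
    · obtain ⟨K, hK⟩ := ha3 (ε / (|c| + 1)) (by positivity)
      refine ⟨K, fun p hp => ?_⟩
      have h1 := hK p hp
      have h3 : ‖(c • a) p‖ = |c| * ‖a p‖ := by
        rw [lp.coeFn_smul, Pi.smul_apply, norm_smul, Real.norm_eq_abs]
      rw [h3]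
      have h4 : 0 < |c| + 1 := by positivity
      rw [le_div_iff₀ h4] at h1
      nlinarith [norm_nonneg (a p), abs_nonneg c]

/-- Davie's vectors -/
structure Evec (D : Dav) where
  e : ∀ k, Fin (mm k) → Wd D
  same : ∀ k j g, (e k j : LI) ⟨k, g⟩ = D.S k j g
  prev : ∀ k j g, (e (k + 1) j : LI) ⟨k, g⟩ = D.T k j g
  zero : ∀ k j l g, l ≠ k → l + 1 ≠ k → (e k j : LI) ⟨l, g⟩ = 0

/-- row EE: the vectors exist (they are in the local subspace by orthogonality) -/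
def ST_EE : Prop := ∀ D : Dav, Nonempty (Evec D)

/-- the value at time one, without the weight -/
noncomputable def val1 (u : LC) (p : Gi) : ℝ := Real.exp (2 * kap * p.1) * u p one1

/-- Davie's trace of level `k` -/
noncomputable def bet (D : Dav) (v : Evec D) (k : ℕ) (R : Wd D →L[ℝ] Ed D) : ℝ :=
  1 / (mm k : ℝ) * ∑ j, 1 / (4 * mm k : ℝ) * ∑ g, D.S k j g * val1 (R (v.e k j) : LC) ⟨k, g⟩

/-- row TLS: the traces of consecutive levels are close.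
By the local condition at time one, level `k + 1` can be computed on the points of level `k`
(with `T k`), the difference is `1 / (4 m_k m_{k+1}) ∑_g val1 (R φ_g) ⟨k, g⟩` with
`φ_g = ∑_j T k j g e_{k+1,j} - 3 ∑_j S k j g e_{k,j}`, `‖φ_g‖ ≤ 3000 m_k^(3/4)` -/
def ST_TLS : Prop := ∀ (D : Dav) (v : Evec D) (R : Wd D →L[ℝ] Ed D) (k : ℕ),
  |bet D v (k + 1) R - bet D v k R| ≤ 1000 * Real.exp (-(Real.log 3 / 8 * k)) * ‖R‖

/-- row BB (TLS): the traces are uniformly bounded -/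
def ST_BB : Prop := ∀ (D : Dav) (v : Evec D), ∃ C : ℝ, 0 < C ∧ ∀ (R : Wd D →L[ℝ] Ed D) (k : ℕ),
  |bet D v k R| ≤ C * ‖R‖

/-- the constant functions (times `t`) -/
def IsJ (D : Dav) (J : Wd D →L[ℝ] Ed D) : Prop := ∀ (w : Wd D) (p : Gi) (t : Set.Icc (0 : ℝ) 1),
  (J w : LC) p t = (t : ℝ) * Real.exp (-(kap * p.1 * (1 + (t : ℝ)))) * (w : LI) p

/-- row JOP: the operator exists -/
def ST_JOP : Prop := ∀ D : Dav, ∃ J : Wd D →L[ℝ] Ed D, IsJ D J

/-- row BJ: all its traces are one -/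
def ST_BJ : Prop := ∀ (D : Dav) (v : Evec D) (J : Wd D →L[ℝ] Ed D), IsJ D J → ∀ k, bet D v k J = 1

/-- row JCT: bounded pointwise convergence gives norm convergence -/
def ST_JCT : Prop := ∀ (D : Dav) (J : Wd D →L[ℝ] Ed D), IsJ D J → ∀ (w : ℕ → Wd D) (v : Wd D),
  (∀ n, ‖w n‖ ≤ 1) → ‖v‖ ≤ 1 →
  (∀ p, Tendsto (fun n => (w n : LI) p) atTop (𝓝 ((v : LI) p))) →
  Tendsto (fun n => J (w n)) atTop (𝓝 (J v))

/-- row CLO: the two subspaces are closed -/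
def ST_CLO : Prop := ∀ D : Dav, IsClosed (Wd D : Set LI) ∧ IsClosed (Ed D : Set LC)

/-! ## compact approximation property -/

/-- row VOL: the Volterra operator `e^{-ct} ∫_0^t e^{cs} v(s) ds` is compact of norm at most `1/c` -/
def ST_VOL : Prop := ∀ c : ℝ, 0 < c → ∃ P : CI →L[ℝ] CI, IsCompactOperator P ∧ ‖P‖ ≤ 1 / c ∧
  ∀ (v : CI) (t : Set.Icc (0 : ℝ) 1), P v t =
    Real.exp (-(c * t)) * ∫ s in (0 : ℝ)..t, Real.exp (c * s) * v (Set.projIcc 0 1 zero_le_one s)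

/-- row OPL: block operators on `LC` -/
def ST_OPL : Prop := ∀ P : Gi → (CI →L[ℝ] CI), (∀ p, IsCompactOperator (P p)) → (∀ p, ‖P p‖ ≤ 1) →
  (∀ ε : ℝ, 0 < ε → ∃ K : ℕ, ∀ p : Gi, K ≤ p.1 → ‖P p‖ ≤ ε) →
  ∃ R : LC →L[ℝ] LC, IsCompactOperator R ∧ ‖R‖ ≤ 1 ∧ ∀ (u : LC) (p : Gi), R u p = P p (u p)

/-- row OPR (VOL, OPL, CLO): the resolvents on the space -/
def ST_OPR : Prop := ∀ (D : Dav) (l : ℝ), 1 ≤ l → ∃ R : Ed D →L[ℝ] Ed D, IsCompactOperator R ∧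
  ‖R‖ ≤ 1 ∧ (∀ (u : Ed D) (p : Gi), ‖(R u : LC) p‖ ≤ ‖(u : LC) p‖) ∧
  ∀ (u : Ed D) (p : Gi) (t : Set.Icc (0 : ℝ) 1), (R u : LC) p t =
    l * (Real.exp (-((l + kap * p.1) * t)) * ∫ s in (0 : ℝ)..t,
      Real.exp ((l + kap * p.1) * s) * (u : LC) p (Set.projIcc 0 1 zero_le_one s))

/-- row VLI: the resolvents tend to the identity -/
def ST_VLI : Prop := ∀ (v : CI), v zer1 = 0 → ∀ b : ℝ, 0 ≤ b → ∀ ε : ℝ, 0 < ε →
  ∃ L : ℝ, 1 ≤ L ∧ ∀ l : ℝ, L ≤ l → ∀ t : Set.Icc (0 : ℝ) 1,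
  |l * (Real.exp (-((l + b) * t)) * ∫ s in (0 : ℝ)..t,
      Real.exp ((l + b) * s) * v (Set.projIcc 0 1 zero_le_one s)) - v t| ≤ ε

/-- the compact approximation property -/
def HasCAP (E : Type) [NormedAddCommGroup E] [NormedSpace ℝ E] : Prop :=
  ∀ K : Set E, IsCompact K → ∀ ε : ℝ, 0 < ε →
    ∃ T : E →L[ℝ] E, IsCompactOperator T ∧ ∀ x ∈ K, ‖T x - x‖ < ε

/-- row CAPE (OPR, VLI) -/
def ST_CAPE : Prop := ∀ D : Dav, HasCAP (Ed D)

/-! ## the compact convex set and the map -/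

/-- the locally convex space -/
abbrev VV := ℕ → ∀ k : ℕ, Fin (4 * mm k) → ℝ

/-- the compact convex set -/
def XX (D : Dav) : Set VV := {φ | (∀ n k g, |φ n k g| ≤ 1) ∧ (∀ n k g, n < k → φ n k g = 0) ∧
  (∀ (n k : ℕ) (j : Fin (mm (k + 1))), k + 1 ≤ n →
    3 * ∑ g, D.T k j g * φ n k g = ∑ g, D.S (k + 1) j g * φ n (k + 1) g) ∧
  ∀ c : ℕ → Gi, (∀ n, (c n).1 ≤ n) → ∀ M : ℕ,
    ∑ n ∈ Finset.range M, |φ (n + 1) (c n).1 (c n).2 - φ n (c n).1 (c n).2| ≤ 1}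

/-- row XCP -/
def ST_XCP : Prop := ∀ D : Dav, IsCompact (XX D) ∧ Convex ℝ (XX D)

/-- the constant sequences, cut at the levels -/
noncomputable def thI (D : Dav) : Wd D →ₗ[ℝ] VV where
  toFun w := fun n k g => if k ≤ n then (w : LI) ⟨k, g⟩ else 0
  map_add' a b := by
    funext n k g
    by_cases h : k ≤ n <;> simp [h]
  map_smul' c a := by
    funext n k g
    by_cases h : k ≤ n <;> simp [h]

/-- the same, zero after the coordinate `N` -/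
noncomputable def th (D : Dav) (N : ℕ) : Wd D →ₗ[ℝ] VV where
  toFun w := fun n k g => if k ≤ n ∧ n ≤ N then (w : LI) ⟨k, g⟩ else 0
  map_add' a b := by
    funext n k g
    by_cases h : k ≤ n ∧ n ≤ N <;> simp [h]
  map_smul' c a := by
    funext n k g
    by_cases h : k ≤ n ∧ n ≤ N <;> simp [h]

/-- row THX -/
def ST_THX : Prop := ∀ (D : Dav) (w : Wd D), ‖w‖ ≤ 1 → thI D w ∈ XX D ∧ ∀ N, th D N w ∈ XX D

/-- `w` is the limit of `φ` -/
def LimOf (D : Dav) (φ : VV) (w : Wd D) : Prop := ‖w‖ ≤ 1 ∧ ∀ ε : ℝ, 0 < ε →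
  ∃ N : ℕ, ∀ n, N ≤ n → ∀ k, k ≤ n → ∀ g, |φ n k g - (w : LI) ⟨k, g⟩| ≤ ε

/-- row LIM: limits exist (the sum of the maxima of the jumps is at most one: choose `c`) -/
def ST_LIM : Prop := ∀ (D : Dav) (φ : VV), φ ∈ XX D → ∃ w : Wd D, LimOf D φ w

/-- row NET: continuous almost best extensions. Finite net `w_i` of the unit ball of `Wd D` for
the sup norm on the levels up to `n` (mesh `η / 2`), `d_i p` = that distance from `p` to `w_i`,
weights `max 0 (min_j d_j + η / 2 - d_i)` -/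
def ST_NET : Prop := ∀ (D : Dav) (n : ℕ) (η : ℝ), 0 < η →
  ∃ G : (∀ k : ℕ, Fin (4 * mm k) → ℝ) → Wd D, Continuous G ∧ (∀ p, ‖G p‖ ≤ 1) ∧
  ∀ (p : ∀ k : ℕ, Fin (4 * mm k) → ℝ) (w : Wd D) (δ : ℝ), ‖w‖ ≤ 1 →
    (∀ k, k ≤ n → ∀ g, |p k g - (w : LI) ⟨k, g⟩| ≤ δ) →
    ∀ k, k ≤ n → ∀ g, |p k g - (G p : LI) ⟨k, g⟩| ≤ δ + η

/-- `f : X → E` is affine on the convex set `X` -/
def IsAffineOn {V E : Type} [AddCommGroup V] [Module ℝ V] [AddCommGroup E] [Module ℝ E]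
    (X : Set V) (f : X → E) : Prop :=
  ∀ (x y z : X) (t : ℝ), 0 ≤ t → t ≤ 1 →
    (z : V) = t • (x : V) + (1 - t) • (y : V) → f z = t • f x + (1 - t) • f y

/-- `f` is of the first Baire class -/
def IsBaireOne {X E : Type} [TopologicalSpace X] [TopologicalSpace E] (f : X → E) : Prop :=
  ∃ F : ℕ → X → E, (∀ n, Continuous (F n)) ∧ ∀ x, Tendsto (fun n => F n x) atTop (𝓝 (f x))

/-- `f` is a pointwise limit of a sequence of continuous affine maps -/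
def IsAffineBaireOne {V E : Type} [AddCommGroup V] [Module ℝ V] [TopologicalSpace V]
    [AddCommGroup E] [Module ℝ E] [TopologicalSpace E] (X : Set V) (f : X → E) : Prop :=
  ∃ F : ℕ → X → E, (∀ n, Continuous (F n) ∧ IsAffineOn X (F n)) ∧
    ∀ x, Tendsto (fun n => F n x) atTop (𝓝 (f x))

/-- `f` is the map `φ ↦ J (lim φ)` -/
def IsF (D : Dav) (J : Wd D →L[ℝ] Ed D) (f : XX D → Ed D) : Prop :=
  ∀ (φ : XX D) (w : Wd D), LimOf D φ w → f φ = J w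

/-- row FAF (LIM): the map is affine -/
def ST_FAF : Prop := ∀ (D : Dav) (J : Wd D →L[ℝ] Ed D) (f : XX D → Ed D), IsF D J f →
  IsAffineOn (XX D) f

/-- row BAI (LIM, NET, JCT): the map is of the first Baire class, `f_n φ = J (G_n (φ n))` -/
def ST_BAI : Prop := ∀ (D : Dav) (J : Wd D →L[ℝ] Ed D) (f : XX D → Ed D), IsJ D J → IsF D J f →
  IsBaireOne f

/-! ## the map is not in the affine class -/

/-- row AGR: uniform continuity on a compact subset of a countable product -/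
def ST_AGR : Prop := ∀ (D : Dav) (a : XX D → Ed D), IsCompact (XX D) → Continuous a →
  ∀ ε : ℝ, 0 < ε → ∃ n : ℕ, ∀ φ ψ : XX D, (∀ l, l ≤ n → (φ : VV) l = (ψ : VV) l) →
    ‖a φ - a ψ‖ ≤ ε

/-- row AFF: bounded affine maps along a linear map are given by operators -/
def ST_AFF : Prop := ∀ (D : Dav) (a : XX D → Ed D), IsCompact (XX D) → Continuous a →
  IsAffineOn (XX D) a → ∀ θ : Wd D →ₗ[ℝ] VV, (∀ w, ‖w‖ ≤ 1 → θ w ∈ XX D) →
  ∃ R : Wd D →L[ℝ] Ed D, ∀ (w : Wd D) (h : θ w ∈ XX D) (h0 : (0 : VV) ∈ XX D), ‖w‖ ≤ 1 →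
    R w = a ⟨θ w, h⟩ - a ⟨0, h0⟩

/-- row TZ (XCP, THX, AGR, AFF, BB): the traces of the operator of a continuous affine map
tend to zero -/
def ST_TZ : Prop := ∀ (D : Dav) (v : Evec D) (a : XX D → Ed D), Continuous a →
  IsAffineOn (XX D) a → ∃ R : Wd D →L[ℝ] Ed D,
  (∀ (w : Wd D) (h : thI D w ∈ XX D) (h0 : (0 : VV) ∈ XX D), ‖w‖ ≤ 1 →
    R w = a ⟨thI D w, h⟩ - a ⟨0, h0⟩) ∧
  ∀ ε : ℝ, 0 < ε → ∃ K : ℕ, ∀ k, K ≤ k → |bet D v k R| ≤ ε

/-- row NOT (THX, CLO, TLS, BJ, TZ; Banach-Steinhaus): the map is not a pointwise limit of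
continuous affine maps -/
def ST_NOT : Prop := ∀ (D : Dav) (_v : Evec D) (J : Wd D →L[ℝ] Ed D) (f : XX D → Ed D),
  IsJ D J → IsF D J f → ¬ IsAffineBaireOne (XX D) f

/-- the final statement: a negative answer to Q2 -/
def ST_FIN : Prop := ∃ (V : Type) (_ : AddCommGroup V) (_ : Module ℝ V) (_ : TopologicalSpace V)
  (_ : IsTopologicalAddGroup V) (_ : ContinuousSMul ℝ V) (_ : T2Space V)
  (_ : LocallyConvexSpace ℝ V) (X : Set V) (E : Type) (_ : NormedAddCommGroup E)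
  (_ : NormedSpace ℝ E) (_ : CompleteSpace E) (f : X → E),
  IsCompact X ∧ Convex ℝ X ∧ HasCAP E ∧ IsAffineOn X f ∧ IsBaireOne f ∧ ¬ IsAffineBaireOne X f

end Pool.Agent.Helper40.WD
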